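import Pool.Agent.H65.SquierH
import Pool.Agent.H65.RH3

namespace Pool.Agent.Results.MP_e6550d_al.FreeSplit

open Pool.Agent.H65.Squier Pool.Agent.H65.RelHyp

/-- Every properly relatively hyperbolic diagram group splits as a non-trivial free product. -/
theorem result (A : Type) (R : Set (List A × List A)) (hR : ∀ r ∈ R, r.1 ≠ [] ∧ r.2 ≠ [])
    (w : Vtx R) (G : Type) [Group G] (φ : G ≃* DiagramGroup R w) (ι : Type) [Finite ι] [Nonempty ι]
    (H : ι → Subgroup G) (hH : ∀ i, H i ≠ ⊤ ∧ Infinite (H i)) (h : IsRelHyp H) :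
    ∃ (B C : Type) (_ : Group B) (_ : Group C),
      Nontrivial B ∧ Nontrivial C ∧ Nonempty (G ≃* Monoid.Coprod B C) := by
  obtain ⟨X, Λ, ρ, C, I⟩ := fill h
  obtain ⟨ψ⟩ := loop_equiv hR w
  replace ψ := φ.trans ψ
  have tf' : ∀ k : G, IsOfFinOrder k → k = 1 := fun k hk => by
    obtain ⟨n, h1, h2⟩ := isOfFinOrder_iff_pow_eq_one.1 hk
    have := tf hR (ψ k).2 (n := n) (by simpa using congrArg (fun x => (ψ x).1) h2)
    exact ψ.injective (Subtype.ext ((this.resolve_left (by omega)).trans (by simp)))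
  obtain ⟨B, D, _, _, h1, h2, ⟨θ⟩⟩ := splits hR w.word (fun a b hab hi => by
    obtain ⟨z, z1, z2, -, i, g, z3⟩ := z2 I (a := ψ.symm a) (b := ψ.symm b)
      (by rw [← map_mul, hab, map_mul]) fun m n e => hi m n (ψ.symm.injective (by simpa using e))
    have m : ∀ k γ : G, k ≠ 1 → g⁻¹ * k * g ∈ H i → g⁻¹ * (γ⁻¹ * k * γ) * g ∈ H i →
        g⁻¹ * γ * g ∈ H i := fun k γ k1 k2 k3 => malnormal I tf' (fun e => k1 (by
      simpa [mul_assoc] using congrArg (g * · * g⁻¹) e)) k2 (by simpa [mul_assoc] using k3)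
    refine ⟨(H i).comap ((MulAut.conj g⁻¹).toMonoidHom.comp ψ.symm.toMonoidHom), fun e =>
      (hH i).1 (eq_top_iff.2 fun x _ => by
        simpa [mul_assoc] using e.ge (Subgroup.mem_top (ψ (g * x * g⁻¹)))), ?_, fun k γ k1 k2 k3 => ?_⟩
    · simpa using m z _ z1 z3 (by rwa [mul_assoc _ z, z2, inv_mul_cancel_left])
    · simpa using m (ψ.symm k) (ψ.symm γ) (by simpa using k1) (by simpa using k2)
        (by simpa using k3)) fun hc => by
    obtain ⟨i⟩ := ‹Nonempty ι›
    have := (hH i).2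
    obtain ⟨k, hk⟩ := exists_ne (1 : H i)
    refine (hH i).1 (eq_top_iff.2 fun x _ => malnormal I tf' (fun e => hk (Subtype.ext e)) k.2 ?_)
    rw [mul_assoc, show k * x = x * k from ψ.injective (by rw [map_mul, hc, map_mul]),
      inv_mul_cancel_left]
    exact k.2
  exact ⟨B, D, _, _, h1, h2, ⟨ψ.trans θ⟩⟩

end Pool.Agent.Results.MP_e6550d_al.FreeSplit
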